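import Mathlib

/-!
# A Hopf order without the Swan property

Let `K = ℚ_2(√3)` with valuation ring `R`, let `G` be cyclic of order four with generator `x` and
let `Λ` be the `R`-span of `1, x, e, x e` where `e = (1 - x^2) / 2`.  Then `Λ` is a Hopf order and
the part `Λ e` is isomorphic to `R[i]`, whose residue field has two elements while `K(i) / K` is
unramified.  Two lattices in `K(i)` of relative index two have different classes in the
Grothendieck group of `Λ`.
-/

set_option autoImplicit false

namespace Pool.Agent.Results.MP_f004b1_al.CyclicFour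

open scoped TensorProduct

section Defs

/-- `Λ` is an `R`-Hopf order in the Hopf algebra `H` over `K`, for a subring `R` of the field `K`:
it is a finitely generated `R`-subalgebra which spans `H` over `K` and is stable under the
comultiplication, the counit and the antipode. -/
structure IsHopfOrder {R K H : Type} [CommRing R] [Field K] [Algebra R K] [Ring H]
    [HopfAlgebra K H] [Algebra R H] (Λ : Subalgebra R H) : Prop where
  fg : (Subalgebra.toSubmodule Λ).FG
  span : Submodule.span K (Λ : Set H) = ⊤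
  comul : ∀ a ∈ Λ, Coalgebra.comul (R := K) a ∈
    AddSubgroup.closure {t : H ⊗[K] H | ∃ b ∈ Λ, ∃ c ∈ Λ, t = b ⊗ₜ[K] c}
  counit : ∀ a ∈ Λ, Coalgebra.counit (R := K) a ∈ (algebraMap R K).range
  antipode : ∀ a ∈ Λ, HopfAlgebra.antipode K a ∈ Λ

/-- A `Λ`-lattice: a finitely generated `Λ`-module which is free over `R`. -/
structure Lat (R Λ : Type) [CommRing R] [Ring Λ] [Algebra R Λ] where
  /-- the underlying type -/
  carrier : Type
  [grp : AddCommGroup carrier]
  [modR : Module R carrier]
  [mod : Module Λ carrier]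
  [tower : IsScalarTower R Λ carrier]
  [fin : Module.Finite Λ carrier]
  [free : Module.Free R carrier]

attribute [instance] Lat.grp Lat.modR Lat.mod Lat.tower Lat.fin Lat.free

/-- The relations `[M] = [M'] + [M'']`, one for every short exact sequence of `Λ`-lattices. -/
def latRel (R Λ : Type) [CommRing R] [Ring Λ] [Algebra R Λ] :
    AddSubgroup (FreeAbelianGroup (Lat R Λ)) :=
  AddSubgroup.closure
    {x | ∃ (M' M M'' : Lat R Λ) (f : M'.carrier →ₗ[Λ] M.carrier)
      (g : M.carrier →ₗ[Λ] M''.carrier),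
      Function.Injective f ∧ Function.Exact f g ∧ Function.Surjective g ∧
      x = FreeAbelianGroup.of M - FreeAbelianGroup.of M' - FreeAbelianGroup.of M''}

/-- The Grothendieck group of `Λ`-lattices. -/
abbrev G0R (R Λ : Type) [CommRing R] [Ring Λ] [Algebra R Λ] : Type 1 :=
  FreeAbelianGroup (Lat R Λ) ⧸ latRel R Λ

/-- The class of a lattice. -/
def cls {R Λ : Type} [CommRing R] [Ring Λ] [Algebra R Λ] (M : Lat R Λ) : G0R R Λ :=
  QuotientAddGroup.mk (FreeAbelianGroup.of M)

/-- For an order `Λ` in `H` the `H`-module `V` is the scalar extension `K ⊗ M` of the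
`Λ`-lattice `M`: there is an injective `Λ`-linear map from `M` to `V` whose image generates `V`
over `H`.  Here `ι` is the inclusion of `Λ` in `H`. -/
def IsScalarExt {Λ H : Type} [Ring Λ] [Ring H] (ι : Λ →+* H) (M : Type) [AddCommGroup M]
    [Module Λ M] (V : Type) [AddCommGroup V] [Module H V] : Prop :=
  ∃ f : M →+ V, Function.Injective f ∧ (∀ (a : Λ) (m : M), f (a • m) = ι a • f m) ∧
    Submodule.span H (Set.range f) = ⊤

/-- The scalar extension map on Grothendieck groups is not injective: there are two `Λ`-lattices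
with the same scalar extension to `H` whose classes are different. -/
def SwanFails (R : Type) {Λ H : Type} [CommRing R] [Ring Λ] [Algebra R Λ] [Ring H]
    (ι : Λ →+* H) : Prop :=
  ∃ (M N : Lat R Λ) (V : Type) (_ : AddCommGroup V) (_ : Module H V),
    IsScalarExt ι M.carrier V ∧ IsScalarExt ι N.carrier V ∧ cls M ≠ cls N

end Defs

section Flat

variable {Λ : Type} [Ring Λ]

/-- The relations between the elements `s = √3`, `x` and `e` of the order. -/
structure Rels (s x e : Λ) : Prop where
  ss : s * s = 3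
  ee : e * e = e
  sx : s * x = x * s
  se : s * e = e * s
  xe : x * e = e * x
  xxe : x * x * e = -e

variable {s x e : Λ} (h : Rels s x e)

/-- The part of a module on which `e` acts as the identity. -/
def part (e : Λ) (M : Type) [AddCommGroup M] [Module Λ M] : AddSubgroup M where
  carrier := {m | e • m = m}
  add_mem' {a b} ha hb := by
    show e • (a + b) = a + b
    rw [smul_add, ha, hb]
  zero_mem' := smul_zero _
  neg_mem' {a} ha := by
    show e • (-a) = -a
    rw [smul_neg]
    exact congrArg _ ha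

theorem mem_part {M : Type} [AddCommGroup M] [Module Λ M] {m : M} :
    m ∈ part e M ↔ e • m = m := Iff.rfl

/-- Multiplication by `√3 x - 1`. -/
def theta (s x : Λ) {M : Type} [AddCommGroup M] [Module Λ M] (m : M) : M := s • x • m - m

include h in
theorem xx_smul {M : Type} [AddCommGroup M] [Module Λ M] {m : M} (hm : m ∈ part e M) :
    x • x • m = -m := by
  have h1 : (x * x * e) • m = -m := by rw [h.xxe, neg_smul, mem_part.1 hm]
  rwa [mul_smul, mul_smul, mem_part.1 hm] at h1

include h in
theorem theta_mem {M : Type} [AddCommGroup M] [Module Λ M] {m : M} (hm : m ∈ part e M) :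
    theta s x m ∈ part e M := by
  rw [mem_part] at *
  rw [theta, smul_sub, ← mul_smul, ← mul_smul, ← h.se, mul_assoc, ← h.xe, mul_smul, mul_smul, hm]

include h in
theorem theta_theta {M : Type} [AddCommGroup M] [Module Λ M] {m : M} (hm : m ∈ part e M) :
    theta s x (theta s x m) + (theta s x m + theta s x m) + (m + m) + (m + m) = 0 := by
  have h3 : s • x • s • x • m = -(m + m + m) := by
    have h1 : s • x • s • x • m = (s * s) • x • x • m := by
      rw [← mul_smul x s, ← h.sx, mul_smul, ← mul_smul s s]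
    rw [h1, xx_smul h hm, h.ss, smul_neg]
    have h2 : (3 : Λ) = 1 + 1 + 1 := by norm_num
    rw [h2, add_smul, add_smul, one_smul]
  simp only [theta, smul_sub, h3]
  abel

/-- The largest subgroup stable under `ω = (√3 x - 1) / 2`. -/
def flat (e s x : Λ) (M : Type) [AddCommGroup M] [Module Λ M] : AddSubgroup (part e M) where
  carrier := {n | ∃ n' : part e M, (n' : M) + n' = theta s x (n : M)}
  add_mem' := by
    rintro a b ⟨a', ha⟩ ⟨b', hb⟩
    refine ⟨a' + b', ?_⟩
    have : theta s x ((a + b : part e M) : M) = theta s x (a : M) + theta s x (b : M) := by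
      simp only [theta, AddSubgroup.coe_add, smul_add]
      abel
    rw [this, ← ha, ← hb, AddSubgroup.coe_add]
    abel
  zero_mem' := ⟨0, by simp [theta]⟩
  neg_mem' := by
    rintro a ⟨a', ha⟩
    refine ⟨-a', ?_⟩
    have : theta s x ((-a : part e M) : M) = -theta s x (a : M) := by
      simp only [theta, AddSubgroup.coe_neg, smul_neg]
      abel
    rw [this, ← ha, AddSubgroup.coe_neg]
    abel

include h in
theorem two_mem_flat {M : Type} [AddCommGroup M] [Module Λ M] (n : part e M) :
    n + n ∈ flat e s x M := by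
  refine ⟨⟨theta s x n, theta_mem h n.2⟩, ?_⟩
  simp only [theta, AddSubgroup.coe_add, smul_add]
  abel

/-- A group without elements of order two. -/
def NoTwo (M : Type) [AddCommGroup M] : Prop := ∀ m : M, m + m = 0 → m = 0

theorem NoTwo.eq {M : Type} [AddCommGroup M] (hM : NoTwo M) {a b : M} (hab : a + a = b + b) :
    a = b := by
  rw [← sub_eq_zero]
  apply hM
  have : a - b + (a - b) = a + a - (b + b) := by abel
  rw [this, hab, sub_self]

include h in
theorem omega_mem {M : Type} [AddCommGroup M] [Module Λ M] (hM : NoTwo M) (n n' : part e M)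
    (hn : (n' : M) + n' = theta s x (n : M)) :
    ((-n - n' : part e M) : M) + ((-n - n' : part e M) : M) = theta s x (n' : M) := by
  apply hM.eq
  have h1 := theta_theta h n.2
  have h2 : theta s x (n' : M) + theta s x (n' : M) = theta s x (theta s x (n : M)) := by
    rw [← hn]
    simp only [theta, smul_add]
    abel
  rw [h2]
  have h3 : theta s x (theta s x (n : M)) =
      -(theta s x (n : M) + theta s x (n : M)) - (n + n) - (n + n) := by
    rw [eq_sub_iff_add_eq, eq_sub_iff_add_eq, eq_neg_iff_add_eq_zero, ← h1]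
    abel
  rw [h3, ← hn, AddSubgroup.coe_sub, AddSubgroup.coe_neg]
  abel

/-- The map `ω` on the flat part. -/
noncomputable def omega {M : Type} [AddCommGroup M] [Module Λ M] (h : Rels s x e)
    (hM : NoTwo M) : flat e s x M →+ flat e s x M where
  toFun n := ⟨Classical.choose n.2, ⟨_, omega_mem h hM _ _ (Classical.choose_spec n.2)⟩⟩
  map_zero' := by
    apply Subtype.ext
    apply Subtype.ext
    apply hM.eq
    rw [Classical.choose_spec (0 : flat e s x M).2]
    simp [theta]
  map_add' a b := by
    apply Subtype.ext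
    apply Subtype.ext
    apply hM.eq
    rw [Classical.choose_spec (a + b).2]
    show _ = ((Classical.choose a.2 : part e M) : M) + ((Classical.choose b.2 : part e M) : M) +
      (((Classical.choose a.2 : part e M) : M) + ((Classical.choose b.2 : part e M) : M))
    have h1 := Classical.choose_spec a.2
    have h2 := Classical.choose_spec b.2
    have h3 : theta s x (((a + b : flat e s x M) : part e M) : M) =
        theta s x ((a : part e M) : M) + theta s x ((b : part e M) : M) := by
      simp only [theta, AddSubgroup.coe_add, smul_add]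
      abel
    rw [h3]
    refine (congrArg₂ (· + ·) h1 h2).symm.trans ?_
    abel

theorem omega_spec {M : Type} [AddCommGroup M] [Module Λ M] (h : Rels s x e)
    (hM : NoTwo M) (n : flat e s x M) :
    ((omega h hM n : part e M) : M) + ((omega h hM n : part e M) : M) =
      theta s x ((n : part e M) : M) :=
  Classical.choose_spec n.2

theorem omega_omega {M : Type} [AddCommGroup M] [Module Λ M] (h : Rels s x e)
    (hM : NoTwo M) (n : flat e s x M) : omega h hM (omega h hM n) = -n - omega h hM n := by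
  apply Subtype.ext
  apply Subtype.ext
  apply hM.eq
  rw [omega_spec, ← omega_mem h hM _ _ (omega_spec h hM n)]
  rfl

/-- The map induced on the parts. -/
def partMap (e : Λ) {M N : Type} [AddCommGroup M] [Module Λ M] [AddCommGroup N] [Module Λ N]
    (f : M →ₗ[Λ] N) : part e M →+ part e N where
  toFun n := ⟨f n, by
    rw [mem_part, ← map_smul]
    exact congrArg f n.2⟩
  map_zero' := Subtype.ext (map_zero f)
  map_add' a b := Subtype.ext (map_add f _ _)

theorem theta_map {M N : Type} [AddCommGroup M] [Module Λ M] [AddCommGroup N] [Module Λ N]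
    (f : M →ₗ[Λ] N) (m : M) : theta s x (f m) = f (theta s x m) := by
  simp only [theta, map_sub, map_smul]

theorem comap_flat {M' M M'' : Type} [AddCommGroup M'] [Module Λ M'] [AddCommGroup M]
    [Module Λ M] [AddCommGroup M''] [Module Λ M''] (f : M' →ₗ[Λ] M) (g : M →ₗ[Λ] M'')
    (hf : Function.Injective f) (hfg : Function.Exact f g) (hM'' : NoTwo M'') :
    (flat e s x M).comap (partMap e f) = flat e s x M' := by
  ext n
  constructor
  · rintro ⟨k, hk⟩
    have hk' : (k : M) + k = f (theta s x (n : M')) := by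
      rw [hk, ← theta_map]
      rfl
    have h1 : g (k : M) = 0 := by
      apply hM''
      rw [← map_add, hk', hfg.apply_apply_eq_zero]
    obtain ⟨k', hk'2⟩ := (hfg _).1 h1
    refine ⟨⟨k', ?_⟩, ?_⟩
    · rw [mem_part]
      apply hf
      rw [map_smul, hk'2]
      exact k.2
    · apply hf
      show f (k' + k') = _
      rw [map_add, hk'2, hk']
  · rintro ⟨k, hk⟩
    refine ⟨partMap e f k, ?_⟩
    show f k + f k = theta s x (f n)
    rw [← map_add, hk, theta_map]

theorem map_flat_le {M M'' : Type} [AddCommGroup M]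
    [Module Λ M] [AddCommGroup M''] [Module Λ M''] (g : M →ₗ[Λ] M'') :
    (flat e s x M).map (partMap e g) ≤ flat e s x M'' := by
  rintro _ ⟨n, ⟨k, hk⟩, rfl⟩
  refine ⟨partMap e g k, ?_⟩
  show g k + g k = theta s x (g n)
  rw [← map_add, hk, theta_map]

include h in
theorem partMap_surjective {M M'' : Type} [AddCommGroup M]
    [Module Λ M] [AddCommGroup M''] [Module Λ M''] (g : M →ₗ[Λ] M'')
    (hg : Function.Surjective g) : Function.Surjective (partMap e g) := by
  intro n
  obtain ⟨m, hm⟩ := hg n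
  refine ⟨⟨e • m, ?_⟩, ?_⟩
  · rw [mem_part, ← mul_smul, h.ee]
  · apply Subtype.ext
    show g (e • m) = n
    rw [map_smul, hm]
    exact n.2

include h in
theorem ker_partMap {M' M M'' : Type} [AddCommGroup M'] [Module Λ M'] [AddCommGroup M]
    [Module Λ M] [AddCommGroup M''] [Module Λ M''] (f : M' →ₗ[Λ] M) (g : M →ₗ[Λ] M'')
    (hfg : Function.Exact f g) :
    (partMap e g).ker = (partMap e f).range := by
  ext n
  constructor
  · intro hn
    have h1 : g n = 0 := congrArg Subtype.val hn
    obtain ⟨m, hm⟩ := (hfg _).1 h1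
    refine ⟨⟨e • m, ?_⟩, ?_⟩
    · rw [mem_part, ← mul_smul, h.ee]
    · apply Subtype.ext
      show f (e • m) = n
      rw [map_smul, hm]
      exact n.2
  · rintro ⟨m, rfl⟩
    apply Subtype.ext
    exact hfg.apply_apply_eq_zero _

/-- The defect group. -/
abbrev Defect (e s x : Λ) {M M'' : Type} [AddCommGroup M]
    [Module Λ M] [AddCommGroup M''] [Module Λ M''] (g : M →ₗ[Λ] M'') : Type :=
  flat e s x M'' ⧸ ((flat e s x M).map (partMap e g)).addSubgroupOf (flat e s x M'')

theorem defect_le {M M'' : Type} [AddCommGroup M]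
    [Module Λ M] [AddCommGroup M''] [Module Λ M''] (h : Rels s x e) (g : M →ₗ[Λ] M'')
    (hM : NoTwo M) (hM'' : NoTwo M'') :
    ((flat e s x M).map (partMap e g)).addSubgroupOf (flat e s x M'') ≤
      (((flat e s x M).map (partMap e g)).addSubgroupOf (flat e s x M'')).comap
        (omega h hM'') := by
  rintro b ⟨n, hn, hb⟩
  refine ⟨(omega h hM ⟨n, hn⟩ : part e M), (omega h hM ⟨n, hn⟩).2, ?_⟩
  apply Subtype.ext
  apply hM''.eq
  show g _ + g _ = _
  rw [← map_add]
  refine (congrArg g (omega_spec h hM ⟨n, hn⟩)).trans ?_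
  refine Eq.trans ?_ (omega_spec h hM'' b).symm
  rw [← theta_map]
  exact congrArg _ (congrArg Subtype.val hb)

theorem card_defect {M M'' : Type} [AddCommGroup M]
    [Module Λ M] [AddCommGroup M''] [Module Λ M''] (h : Rels s x e) (g : M →ₗ[Λ] M'')
    (hg : Function.Surjective g)
    (hM : NoTwo M) (hM'' : NoTwo M'') [Finite (Defect e s x g)] :
    Nat.card (Defect e s x g) % 3 = 1 := by
  classical
  let τ : Defect e s x g →+ Defect e s x g :=
    QuotientAddGroup.map _ _ (omega h hM'') (defect_le h g hM hM'')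
  have hτ : ∀ t, τ (τ t) = -t - τ t := by
    intro t
    induction t using QuotientAddGroup.induction_on with
    | H n =>
      show ((omega h hM'' (omega h hM'' n) : flat e s x M'') : Defect e s x g) = _
      rw [omega_omega]
      rfl
  have htwo : ∀ t : Defect e s x g, t + t = 0 := by
    intro t
    induction t using QuotientAddGroup.induction_on with
    | H n =>
      refine (QuotientAddGroup.eq_zero_iff (n + n)).2 ?_
      obtain ⟨m, hm⟩ := partMap_surjective h g hg (n : part e M'')
      exact ⟨m + m, two_mem_flat h m, by rw [map_add, hm]; rfl⟩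
  let τ' : Function.End (Defect e s x g) := fun t => τ t
  have h3 : τ' ^ 3 ^ 1 = 1 := by
    funext t
    show τ (τ (τ t)) = t
    rw [hτ (τ t), hτ t]
    abel
  have := Fintype.ofFinite (Defect e s x g)
  have h4 := Equiv.Perm.card_fixedPoints_modEq (p := 3) (n := 1) h3
  have h5 : Fintype.card (Function.fixedPoints τ') = 1 := by
    rw [Fintype.card_eq_one_iff]
    refine ⟨⟨0, map_zero τ⟩, ?_⟩
    rintro ⟨t, ht⟩
    apply Subtype.ext
    have h6 : τ t = t := ht
    have h7 := hτ t
    rw [h6, h6] at h7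
    have h8 := htwo t
    show t = 0
    have h9 : -t - t = 0 := by
      rw [← neg_add', h8, neg_zero]
    rw [h9] at h7
    exact h7
  rw [h5] at h4
  rw [Nat.card_eq_fintype_card]
  exact h4

theorem index_mul {M' M M'' : Type} [AddCommGroup M'] [Module Λ M'] [AddCommGroup M]
    [Module Λ M] [AddCommGroup M''] [Module Λ M''] (h : Rels s x e)
    (f : M' →ₗ[Λ] M) (g : M →ₗ[Λ] M'')
    (hf : Function.Injective f) (hfg : Function.Exact f g) (hg : Function.Surjective g)
    (hM : NoTwo M) (hM'' : NoTwo M'') (hfin : (flat e s x M).index ≠ 0) :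
    (flat e s x M).index % 3 =
      ((flat e s x M').index * (flat e s x M'').index) % 3 := by
  have h1 : ((flat e s x M).map (partMap e g)).index =
      (flat e s x M ⊔ (partMap e g).ker).index := by
    rw [AddSubgroup.index_map, AddMonoidHom.range_eq_top_of_surjective _
      (partMap_surjective h g hg), AddSubgroup.index_top, mul_one]
  have h2 : (flat e s x M).relIndex (flat e s x M ⊔ (partMap e g).ker) =
      (flat e s x M').index := by
    rw [sup_comm, AddSubgroup.relIndex_sup_right, ker_partMap h f g hfg,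
      ← AddSubgroup.index_comap, comap_flat f g hf hfg hM'']
  have h3 := AddSubgroup.relIndex_mul_index (le_sup_left : flat e s x M ≤
    flat e s x M ⊔ (partMap e g).ker)
  have h4 := AddSubgroup.relIndex_mul_index (map_flat_le (e := e) (s := s) (x := x) g)
  rw [h2, ← h1, ← h4] at h3
  have h5 : ((flat e s x M).map (partMap e g)).relIndex (flat e s x M'') ≠ 0 := by
    intro h6
    rw [h6] at h3
    apply hfin
    rw [← h3]
    ring
  have : Finite (Defect e s x g) := Nat.finite_of_card_ne_zero h5
  have h6 : ((flat e s x M).map (partMap e g)).relIndex (flat e s x M'') % 3 = 1 :=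
    card_defect h g hg hM hM''
  rw [← h3, Nat.mul_mod, Nat.mul_mod (((flat e s x M).map (partMap e g)).relIndex _), h6,
    Nat.mul_mod (flat e s x M').index]
  simp

end Flat

section Padic

open Module

theorem span_two : Ideal.span {(2 : ℤ_[2])} = RingHom.ker (PadicInt.toZMod (p := 2)) := by
  rw [PadicInt.ker_toZMod, PadicInt.maximalIdeal_eq_span_p]
  norm_num

instance : (Ideal.span {(2 : ℤ_[2])}).IsMaximal := by
  rw [span_two, PadicInt.ker_toZMod]
  infer_instance

theorem card_quot : Nat.card (ℤ_[2] ⧸ Ideal.span {(2 : ℤ_[2])}) = 2 := by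
  rw [span_two]
  have h := Nat.card_congr (RingHom.quotientKerEquivOfSurjective
    (ZMod.ringHom_surjective (PadicInt.toZMod (p := 2)))).toEquiv
  rw [h, Nat.card_zmod]

instance : Finite (ℤ_[2] ⧸ Ideal.span {(2 : ℤ_[2])}) :=
  Nat.finite_of_card_ne_zero (by rw [card_quot]; norm_num)

/-- Doubling. -/
def dbl (M : Type) [AddCommGroup M] : M →+ M where
  toFun m := m + m
  map_zero' := by simp
  map_add' a b := by abel

theorem finite_mod_two (R M : Type) [CommRing R] [Algebra ℤ_[2] R] [Module.Finite ℤ_[2] R]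
    [AddCommGroup M] [Module R M] [Module.Finite R M] : Finite (M ⧸ (dbl M).range) := by
  let _ : Module ℤ_[2] M := Module.compHom M (algebraMap ℤ_[2] R)
  have : IsScalarTower ℤ_[2] R M := IsScalarTower.of_algebraMap_smul fun _ _ => rfl
  have : Module.Finite ℤ_[2] M := Module.Finite.trans R M
  let I : Ideal ℤ_[2] := Ideal.span {(2 : ℤ_[2])}
  have : Module.Finite ℤ_[2] (M ⧸ (I • (⊤ : Submodule ℤ_[2] M))) := inferInstance
  have : Module.Finite (ℤ_[2] ⧸ I) (M ⧸ (I • (⊤ : Submodule ℤ_[2] M))) :=
    Module.Finite.of_restrictScalars_finite ℤ_[2] _ _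
  have : Finite (M ⧸ (I • (⊤ : Submodule ℤ_[2] M))) := Module.finite_of_finite (ℤ_[2] ⧸ I)
  have hle : (I • (⊤ : Submodule ℤ_[2] M)).toAddSubgroup ≤ (dbl M).range := by
    intro m hm
    have hm' : m ∈ I • (⊤ : Submodule ℤ_[2] M) := hm
    rw [Submodule.ideal_span_singleton_smul] at hm'
    obtain ⟨n, -, hn⟩ := hm'
    refine ⟨n, ?_⟩
    have h2 : (2 : ℤ_[2]) • n = m := hn
    rw [two_smul] at h2
    exact h2
  have h1 : ((I • (⊤ : Submodule ℤ_[2] M)).toAddSubgroup).index ≠ 0 := by
    have : Finite (M ⧸ (I • (⊤ : Submodule ℤ_[2] M)).toAddSubgroup) := this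
    exact AddSubgroup.index_ne_zero_of_finite
  have h2 : (dbl M).range.index ≠ 0 := by
    intro h3
    apply h1
    have := AddSubgroup.index_dvd_of_le hle
    rw [h3] at this
    exact Nat.eq_zero_of_zero_dvd this
  exact Nat.finite_of_card_ne_zero h2

variable (K : Type) [Field K] [Algebra ℚ_[2] K] [Algebra ℤ_[2] K] [IsScalarTower ℤ_[2] ℚ_[2] K]

instance finite_int [FiniteDimensional ℚ_[2] K] :
    Module.Finite ℤ_[2] (integralClosure ℤ_[2] K) :=
  IsIntegralClosure.finite ℤ_[2] ℚ_[2] K _

theorem card_mod_two [FiniteDimensional ℚ_[2] K] (h : finrank ℚ_[2] K = 2) :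
    Nat.card (integralClosure ℤ_[2] K ⧸ Ideal.span {(2 : integralClosure ℤ_[2] K)}) = 4 := by
  have : IsFractionRing (integralClosure ℤ_[2] K) K :=
    integralClosure.isFractionRing_of_finite_extension ℚ_[2] K
  have h1 := Ideal.finrank_quotient_map (R := ℤ_[2]) (S := integralClosure ℤ_[2] K) (K := ℚ_[2])
    (L := K) (Ideal.span {(2 : ℤ_[2])})
  rw [h] at h1
  have h2 : Ideal.map (algebraMap ℤ_[2] (integralClosure ℤ_[2] K)) (Ideal.span {(2 : ℤ_[2])}) =
      Ideal.span {(2 : integralClosure ℤ_[2] K)} := by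
    rw [Ideal.map_span, Set.image_singleton, map_ofNat]
  let _ : Field (ℤ_[2] ⧸ Ideal.span {(2 : ℤ_[2])}) := Ideal.Quotient.field _
  have h3 := Module.natCard_eq_pow_finrank (K := ℤ_[2] ⧸ Ideal.span {(2 : ℤ_[2])})
    (V := integralClosure ℤ_[2] K ⧸ Ideal.map (algebraMap ℤ_[2] (integralClosure ℤ_[2] K))
      (Ideal.span {(2 : ℤ_[2])}))
  rw [← h2, h3, h1, card_quot]
  norm_num

end Padic

section Invariant

open Module

variable {R Λ : Type} [CommRing R] [IsDomain R] [CharZero R] [Algebra ℤ_[2] R]
  [Module.Finite ℤ_[2] R] [Ring Λ] [Algebra R Λ] [Module.Finite R Λ]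

omit [Algebra ℤ_[2] R] [Module.Finite ℤ_[2] R] [Module.Finite R Λ] in
theorem noTwo (M : Lat R Λ) : NoTwo M.carrier := by
  intro m hm
  rw [← two_smul R m] at hm
  exact (smul_eq_zero.1 hm).resolve_left two_ne_zero

variable {s x e : Λ}

omit [IsDomain R] [CharZero R] in
theorem index_ne_zero (h : Rels s x e) (M : Lat R Λ) : (flat e s x M.carrier).index ≠ 0 := by
  have : Module.Finite R M.carrier := Module.Finite.trans Λ M.carrier
  have := finite_mod_two R M.carrier
  let π : part e M.carrier →+ M.carrier ⧸ (dbl M.carrier).range :=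
    (QuotientAddGroup.mk' _).comp (part e M.carrier).subtype
  have hle : π.ker ≤ flat e s x M.carrier := by
    intro n hn
    have h1 : (n : M.carrier) ∈ (dbl M.carrier).range :=
      (QuotientAddGroup.eq_zero_iff (n : M.carrier)).1 hn
    obtain ⟨m, hm⟩ := h1
    have hm' : m + m = (n : M.carrier) := hm
    have h2 : (⟨e • m, by rw [mem_part, ← mul_smul, h.ee]⟩ : part e M.carrier) +
        ⟨e • m, by rw [mem_part, ← mul_smul, h.ee]⟩ = n := by
      apply Subtype.ext
      show e • m + e • m = n
      rw [← smul_add, hm']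
      exact n.2
    rw [← h2]
    exact two_mem_flat h _
  have h3 : π.ker.index ≠ 0 := by
    rw [AddSubgroup.index_ker]
    exact Nat.card_pos.ne'
  intro h4
  apply h3
  have := AddSubgroup.index_dvd_of_le hle
  rw [h4] at this
  exact Nat.eq_zero_of_zero_dvd this

omit [IsDomain R] [CharZero R] in
theorem index_mod_ne (h : Rels s x e) (M : Lat R Λ) :
    (flat e s x M.carrier).index % 3 ≠ 0 := by
  intro h0
  have hfin : Finite (part e M.carrier ⧸ flat e s x M.carrier) :=
    Nat.finite_of_card_ne_zero (index_ne_zero h M)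
  have := Fintype.ofFinite (part e M.carrier ⧸ flat e s x M.carrier)
  have h1 : 3 ∣ Fintype.card (part e M.carrier ⧸ flat e s x M.carrier) := by
    rw [← Nat.card_eq_fintype_card]
    exact Nat.dvd_of_mod_eq_zero h0
  obtain ⟨t, ht⟩ := exists_prime_addOrderOf_dvd_card 3 h1
  have h2 : t + t = 0 := by
    induction t using QuotientAddGroup.induction_on with
    | H n => exact (QuotientAddGroup.eq_zero_iff (n + n)).2 (two_mem_flat h n)
  have h3 : addOrderOf t ∣ 2 := addOrderOf_dvd_of_nsmul_eq_zero (by rw [two_nsmul, h2])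
  rw [ht] at h3
  revert h3
  decide

/-- The invariant of a lattice. -/
noncomputable def eps (s x e : Λ) (M : Lat R Λ) : ZMod 2 :=
  if (flat e s x M.carrier).index % 3 = 1 then 0 else 1

theorem eps_add (h : Rels s x e) (M' M M'' : Lat R Λ) (f : M'.carrier →ₗ[Λ] M.carrier)
    (g : M.carrier →ₗ[Λ] M''.carrier) (hf : Function.Injective f) (hfg : Function.Exact f g)
    (hg : Function.Surjective g) : eps s x e M = eps s x e M' + eps s x e M'' := by
  have h1 := index_mul h f g hf hfg hg (noTwo M) (noTwo M'') (index_ne_zero h M)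
  have h2 := index_mod_ne h M'
  have h3 := index_mod_ne h M''
  have h2' : (flat e s x M'.carrier).index % 3 = 1 ∨ (flat e s x M'.carrier).index % 3 = 2 := by
    omega
  have h3' : (flat e s x M''.carrier).index % 3 = 1 ∨ (flat e s x M''.carrier).index % 3 = 2 := by
    omega
  rw [Nat.mul_mod] at h1
  rcases h2' with h2' | h2' <;> rcases h3' with h3' | h3' <;>
    rw [h2', h3'] at h1 <;> simp [eps, h1, h2', h3'] <;> decide

theorem eps_eq_of_cls (h : Rels s x e) (M N : Lat R Λ) (hMN : cls M = cls N) :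
    eps s x e M = eps s x e N := by
  let φ : FreeAbelianGroup (Lat R Λ) →+ ZMod 2 := FreeAbelianGroup.lift (eps s x e)
  have hle : latRel R Λ ≤ φ.ker := by
    rw [latRel, AddSubgroup.closure_le]
    rintro _ ⟨M', M, M'', f, g, hf, hfg, hg, rfl⟩
    show φ _ = 0
    rw [map_sub, map_sub, FreeAbelianGroup.lift_apply_of, FreeAbelianGroup.lift_apply_of,
      FreeAbelianGroup.lift_apply_of, eps_add h M' M M'' f g hf hfg hg]
    ring
  have h1 : FreeAbelianGroup.of M - FreeAbelianGroup.of N ∈ latRel R Λ :=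
    (QuotientAddGroup.eq_iff_sub_mem).1 hMN
  have h2 : φ (FreeAbelianGroup.of M - FreeAbelianGroup.of N) = 0 := hle h1
  rw [map_sub, FreeAbelianGroup.lift_apply_of, FreeAbelianGroup.lift_apply_of] at h2
  exact sub_eq_zero.1 h2

end Invariant

section Order

variable {R K : Type} [CommRing R] [Field K] [Algebra R K]

/-- The cyclic group of order four. -/
abbrev C4 : Type := Multiplicative (ZMod 4)

/-- The group algebra. -/
abbrev HH (K : Type) [Field K] : Type := MonoidAlgebra K C4

variable (K)

/-- A generator of the group as an element of the group algebra. -/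
noncomputable def gX : HH K := MonoidAlgebra.single (Multiplicative.ofAdd 1) 1

/-- The idempotent `(1 - x^2) / 2`. -/
noncomputable def gE : HH K := (1 / 2 : K) • (1 - gX K * gX K)

variable {K}

theorem gX_mul (hK : (2 : K) ≠ 0) : gX K * gX K = 1 - (gE K + gE K) := by
  have : NeZero (2 : K) := ⟨hK⟩
  rw [gE, ← add_smul, add_halves, one_smul]
  ring

theorem gX_four : gX K * gX K * (gX K * gX K) = 1 := by
  simp only [gX, MonoidAlgebra.single_mul_single, mul_one, ← ofAdd_add]
  rfl

theorem gE_mul (hK : (2 : K) ≠ 0) : gE K * gE K = gE K := by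
  have h : (1 - gX K * gX K) * (1 - gX K * gX K) = (2 : K) • (1 - gX K * gX K) := by
    rw [two_smul]
    linear_combination gX_four (K := K)
  rw [gE, smul_mul_smul_comm, h, smul_smul]
  congr 1
  field_simp

/-- The elements of the order. -/
noncomputable def elt (K : Type) [Field K] [Algebra R K] (a b c d : R) : HH K :=
  algebraMap R (HH K) a + algebraMap R (HH K) b * gX K + algebraMap R (HH K) c * gE K +
    algebraMap R (HH K) d * (gX K * gE K)

theorem elt_mul (hK : (2 : K) ≠ 0) (a b c d a' b' c' d' : R) :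
    elt K a b c d * elt K a' b' c' d' =
      elt K (a * a' + b * b') (a * b' + b * a')
        (a * c' - 2 * (b * b') - b * d' + c * a' + c * c' - d * b' - d * d')
        (a * d' + b * c' + c * b' + c * d' + d * a' + d * c') := by
  simp only [elt, map_add, map_mul, map_sub, map_ofNat]
  have h1 := gX_mul hK
  have h2 := gE_mul hK
  set A := algebraMap R (HH K) a
  set B := algebraMap R (HH K) b
  set C := algebraMap R (HH K) c
  set D := algebraMap R (HH K) d
  set A' := algebraMap R (HH K) a'
  set B' := algebraMap R (HH K) b'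
  set C' := algebraMap R (HH K) c'
  set D' := algebraMap R (HH K) d'
  linear_combination (B * B' + B * D' * gE K + D * B' * gE K + D * D' * gE K * gE K) * h1 +
    (C * C' + C * D' * gX K + D * C' * gX K - 2 * B * D' - 2 * D * B' + D * D' *
      (-1 - 2 * gE K)) * h2

/-- The order spanned by `1, x, e, x e`. -/
noncomputable def ord (R : Type) [CommRing R] [Algebra R K] (hK : (2 : K) ≠ 0) :
    Subalgebra R (HH K) where
  carrier := {h | ∃ a b c d : R, h = elt K a b c d}
  mul_mem' := by
    rintro _ _ ⟨a, b, c, d, rfl⟩ ⟨a', b', c', d', rfl⟩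
    exact ⟨_, _, _, _, elt_mul hK _ _ _ _ _ _ _ _⟩
  add_mem' := by
    rintro _ _ ⟨a, b, c, d, rfl⟩ ⟨a', b', c', d', rfl⟩
    refine ⟨a + a', b + b', c + c', d + d', ?_⟩
    simp only [elt, map_add]
    ring
  algebraMap_mem' r := ⟨r, 0, 0, 0, by simp [elt]⟩

theorem mem_ord (hK : (2 : K) ≠ 0) {h : HH K} :
    h ∈ ord R hK ↔ ∃ a b c d : R, h = elt K a b c d := Iff.rfl

theorem gX_mem (hK : (2 : K) ≠ 0) : gX K ∈ ord R hK :=
  ⟨0, 1, 0, 0, by simp only [elt, map_zero, map_one]; ring⟩

theorem gE_mem (hK : (2 : K) ≠ 0) : gE K ∈ ord R hK :=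
  ⟨0, 0, 1, 0, by simp only [elt, map_zero, map_one]; ring⟩

theorem ord_fg (hK : (2 : K) ≠ 0) : (Subalgebra.toSubmodule (ord R hK)).FG := by
  have h : Subalgebra.toSubmodule (ord R hK) =
      Submodule.span R {1, gX K, gE K, gX K * gE K} := by
    apply le_antisymm
    · rintro _ ⟨a, b, c, d, rfl⟩
      simp only [elt, ← Algebra.smul_def]
      rw [← mul_one (algebraMap R (HH K) a), ← Algebra.smul_def]
      refine Submodule.add_mem _ (Submodule.add_mem _ (Submodule.add_mem _ ?_ ?_) ?_) ?_ <;>
        exact Submodule.smul_mem _ _ (Submodule.subset_span (by simp))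
    · rw [Submodule.span_le]
      rintro _ (rfl | rfl | rfl | rfl)
      · exact (ord R hK).one_mem
      · exact gX_mem hK
      · exact gE_mem hK
      · exact (ord R hK).mul_mem (gX_mem hK) (gE_mem hK)
  rw [h]
  exact Submodule.fg_span (Set.toFinite _)

theorem of_mem (hK : (2 : K) ≠ 0) (g : C4) : MonoidAlgebra.single g (1 : K) ∈ ord R hK := by
  have h : ∀ g : C4, ∃ n : ℕ, g = (Multiplicative.ofAdd 1) ^ n := by
    intro g
    refine ⟨g.toAdd.val, ?_⟩
    rw [← ofAdd_nsmul]
    simp
  obtain ⟨n, rfl⟩ := h g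
  have h2 : MonoidAlgebra.single ((Multiplicative.ofAdd 1 : C4) ^ n) (1 : K) = gX K ^ n := by
    rw [gX, MonoidAlgebra.single_pow, one_pow]
  rw [h2]
  exact (ord R hK).pow_mem (gX_mem hK) n

theorem ord_span (hK : (2 : K) ≠ 0) : Submodule.span K (ord R hK : Set (HH K)) = ⊤ := by
  rw [eq_top_iff]
  intro h _
  induction h using MonoidAlgebra.induction_on with
  | of g => exact Submodule.subset_span (of_mem hK g)
  | add x y hx hy => exact Submodule.add_mem _ (hx trivial) (hy trivial)
  | smul r x hx => exact Submodule.smul_mem _ _ (hx trivial)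

theorem elt_eq (a b c d : R) :
    elt K a b c d = algebraMap R K a • (1 : HH K) + algebraMap R K b • gX K +
      algebraMap R K c • gE K + algebraMap R K d • (gX K * gE K) := by
  simp only [elt, Algebra.smul_def, mul_one, ← IsScalarTower.algebraMap_apply]

theorem smul_mem_ord (hK : (2 : K) ≠ 0) (r : R) {h : HH K} (hh : h ∈ ord R hK) :
    algebraMap R K r • h ∈ ord R hK := by
  rw [algebraMap_smul]
  exact (ord R hK).smul_mem hh r

/-- The additive group generated by the tensors of two elements of the order. -/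
noncomputable def tens (R : Type) [CommRing R] [Algebra R K] (hK : (2 : K) ≠ 0) :
    AddSubgroup (HH K ⊗[K] HH K) :=
  AddSubgroup.closure {t | ∃ b ∈ ord R hK, ∃ c ∈ ord R hK, t = b ⊗ₜ[K] c}

theorem tmul_mem (hK : (2 : K) ≠ 0) {b c : HH K} (hb : b ∈ ord R hK) (hc : c ∈ ord R hK) :
    b ⊗ₜ[K] c ∈ tens R hK := AddSubgroup.subset_closure ⟨b, hb, c, hc, rfl⟩

theorem smul_mem_tens (hK : (2 : K) ≠ 0) (r : R) {t : HH K ⊗[K] HH K} (ht : t ∈ tens R hK) :
    algebraMap R K r • t ∈ tens R hK := by
  induction ht using AddSubgroup.closure_induction with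
  | mem x hx =>
    obtain ⟨b, hb, c, hc, rfl⟩ := hx
    rw [TensorProduct.smul_tmul']
    exact tmul_mem hK (smul_mem_ord hK r hb) hc
  | zero => rw [smul_zero]; exact AddSubgroup.zero_mem _
  | add x y _ _ hx hy => rw [smul_add]; exact AddSubgroup.add_mem _ hx hy
  | neg x _ hx => rw [smul_neg]; exact AddSubgroup.neg_mem _ hx

theorem comul_gX : Coalgebra.comul (R := K) (gX K) = gX K ⊗ₜ[K] gX K := by
  simp [gX]

theorem two_cancel (hK : (2 : K) ≠ 0) {V : Type} [AddCommGroup V] [Module K V] {a b : V}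
    (h : a + a = b + b) : a = b := by
  rw [← two_smul K, ← two_smul K] at h
  exact smul_right_injective V hK h

theorem comul_gE (hK : (2 : K) ≠ 0) : Coalgebra.comul (R := K) (gE K) =
    gE K ⊗ₜ[K] 1 + 1 ⊗ₜ[K] gE K - (gE K ⊗ₜ[K] gE K + gE K ⊗ₜ[K] gE K) := by
  apply two_cancel hK
  have h1 : gE K + gE K = 1 - gX K * gX K := by
    rw [gX_mul hK]
    ring
  rw [← map_add, h1, map_sub, Bialgebra.comul_mul, comul_gX, Bialgebra.comul_one,
    Algebra.TensorProduct.tmul_mul_tmul, gX_mul hK]
  have h2 : gE K ⊗ₜ[K] gE K = (gE K ⊗ₜ[K] (1 : HH K)) * ((1 : HH K) ⊗ₜ[K] gE K) := by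
    rw [Algebra.TensorProduct.tmul_mul_tmul, mul_one, one_mul]
  rw [TensorProduct.sub_tmul, TensorProduct.tmul_sub, TensorProduct.tmul_sub,
    TensorProduct.add_tmul, TensorProduct.add_tmul, TensorProduct.tmul_add,
    TensorProduct.tmul_add, ← Algebra.TensorProduct.one_def]
  abel

theorem antipode_gX (hK : (2 : K) ≠ 0) :
    HopfAlgebra.antipode K (gX K) = gX K - (gX K * gE K + gX K * gE K) := by
  have h1 : HopfAlgebra.antipode K (gX K) = gX K * (gX K * gX K) := by
    simp only [gX, MonoidAlgebra.antipode_single, MonoidAlgebra.single_mul_single, mul_one,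
      ← ofAdd_add, ← ofAdd_neg]
    simp
    rfl
  rw [h1, gX_mul hK]
  ring

theorem antipode_gXX :
    HopfAlgebra.antipode K (gX K * gX K) = gX K * gX K := by
  simp only [gX, MonoidAlgebra.antipode_single, MonoidAlgebra.single_mul_single, mul_one,
      ← ofAdd_add, ← ofAdd_neg]
  simp
  rfl

theorem antipode_gE (hK : (2 : K) ≠ 0) : HopfAlgebra.antipode K (gE K) = gE K := by
  apply two_cancel hK
  have h1 : gE K + gE K = 1 - gX K * gX K := by
    rw [gX_mul hK]
    ring
  rw [← map_add, h1, map_sub, antipode_gXX, HopfAlgebra.antipode_one]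

theorem antipode_gXE (hK : (2 : K) ≠ 0) :
    HopfAlgebra.antipode K (gX K * gE K) = -(gX K * gE K) := by
  apply two_cancel hK
  have h1 : gX K * gE K + gX K * gE K = gX K - gX K * (gX K * gX K) := by
    rw [gX_mul hK]
    ring
  have h2 : HopfAlgebra.antipode K (gX K * (gX K * gX K)) = gX K := by
    simp only [gX, MonoidAlgebra.antipode_single, MonoidAlgebra.single_mul_single, mul_one,
      ← ofAdd_add, ← ofAdd_neg]
    simp
    rfl
  rw [← map_add, h1, map_sub, h2, antipode_gX hK, ← neg_add, h1, gX_mul hK]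
  ring

theorem counit_gX : Coalgebra.counit (R := K) (gX K) = 1 := by
  simp [gX]

theorem counit_gE (hK : (2 : K) ≠ 0) : Coalgebra.counit (R := K) (gE K) = 0 := by
  apply two_cancel hK
  have h1 : gE K + gE K = 1 - gX K * gX K := by
    rw [gX_mul hK]
    ring
  rw [← map_add, h1, map_sub, Bialgebra.counit_mul, counit_gX, Bialgebra.counit_one]
  ring

theorem isHopfOrder (hK : (2 : K) ≠ 0) : IsHopfOrder (K := K) (ord R hK) where
  fg := ord_fg hK
  span := ord_span hK
  comul := by
    rintro _ ⟨a, b, c, d, rfl⟩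
    show _ ∈ tens R hK
    have hx := gX_mem (R := R) hK
    have he := gE_mem (R := R) hK
    have h1 := (ord R hK).one_mem
    have hxe := (ord R hK).mul_mem hx he
    have hE : Coalgebra.comul (R := K) (gE K) ∈ tens R hK := by
      rw [comul_gE hK]
      exact AddSubgroup.sub_mem _ (AddSubgroup.add_mem _ (tmul_mem hK he h1) (tmul_mem hK h1 he))
        (AddSubgroup.add_mem _ (tmul_mem hK he he) (tmul_mem hK he he))
    have hXE : Coalgebra.comul (R := K) (gX K * gE K) ∈ tens R hK := by
      rw [Bialgebra.comul_mul, comul_gX, comul_gE hK, mul_sub, mul_add, mul_add]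
      simp only [Algebra.TensorProduct.tmul_mul_tmul, mul_one]
      exact AddSubgroup.sub_mem _ (AddSubgroup.add_mem _ (tmul_mem hK hxe hx) (tmul_mem hK hx hxe))
        (AddSubgroup.add_mem _ (tmul_mem hK hxe hxe) (tmul_mem hK hxe hxe))
    rw [elt_eq, map_add, map_add, map_add, map_smul, map_smul, map_smul, map_smul,
      Bialgebra.comul_one, comul_gX]
    exact AddSubgroup.add_mem _ (AddSubgroup.add_mem _ (AddSubgroup.add_mem _
      (smul_mem_tens hK a (tmul_mem hK h1 h1)) (smul_mem_tens hK b (tmul_mem hK hx hx)))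
      (smul_mem_tens hK c hE)) (smul_mem_tens hK d hXE)
  counit := by
    rintro _ ⟨a, b, c, d, rfl⟩
    refine ⟨a + b, ?_⟩
    rw [elt_eq, map_add, map_add, map_add, map_add, map_smul, map_smul, map_smul, map_smul,
      Bialgebra.counit_mul, counit_gX, counit_gE hK, Bialgebra.counit_one]
    simp
  antipode := by
    rintro _ ⟨a, b, c, d, rfl⟩
    refine ⟨a, b, c, -(2 * b) - d, ?_⟩
    rw [elt_eq, elt_eq, map_add, map_add, map_add, map_smul, map_smul, map_smul, map_smul,
      antipode_gX hK, antipode_gE hK, antipode_gXE hK, HopfAlgebra.antipode_one, map_sub, map_neg,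
      map_mul, map_ofNat, two_mul, sub_smul, neg_smul, add_smul, smul_sub, smul_neg, smul_add]
    abel

end Order

section Space

variable {K : Type} [Field K]

/-- The two-dimensional space on which the generator acts as multiplication by `i`. -/
def VV (K : Type) : Type := K × K

instance : AddCommGroup (VV K) := inferInstanceAs (AddCommGroup (K × K))

instance : Module K (VV K) := inferInstanceAs (Module K (K × K))

/-- The vector with given coordinates. -/
def mkV {K : Type} (a b : K) : VV K := ((a, b) : K × K)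

/-- Multiplication by `i`. -/
def JJ (K : Type) [Field K] : Module.End K (VV K) where
  toFun v := ((-v.2, v.1) : K × K)
  map_add' a b := by
    show ((-(a.2 + b.2), a.1 + b.1) : K × K) = (-a.2 + -b.2, a.1 + b.1)
    rw [neg_add]
  map_smul' c a := by
    show ((-(c * a.2), c * a.1) : K × K) = (c * -a.2, c * a.1)
    rw [mul_neg]

theorem JJ_apply (v : VV K) : JJ K v = ((-v.2, v.1) : K × K) := rfl

theorem JJ_sq : JJ K * JJ K = -1 := by
  refine LinearMap.ext fun v => ?_
  show ((-v.1, -v.2) : K × K) = -(v : K × K)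
  rfl

theorem JJ_four : JJ K ^ 4 = 1 := by
  have : JJ K ^ 4 = (JJ K * JJ K) * (JJ K * JJ K) := by
    simp only [pow_succ, pow_zero, one_mul, mul_assoc]
  rw [this, JJ_sq]
  simp

/-- The action of the group. -/
def repG (K : Type) [Field K] : C4 →* Module.End K (VV K) where
  toFun g := JJ K ^ (ZMod.val g.toAdd)
  map_one' := by simp
  map_mul' g h := by
    rw [toAdd_mul, ZMod.val_add, ← pow_add, ← pow_eq_pow_mod _ JJ_four]

noncomputable instance : Module (HH K) (VV K) :=
  Module.compHom (VV K) (MonoidAlgebra.lift K (Module.End K (VV K)) C4 (repG K)).toRingHom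

theorem HH_smul (h : HH K) (v : VV K) :
    h • v = MonoidAlgebra.lift K (Module.End K (VV K)) C4 (repG K) h v := rfl

instance : IsScalarTower K (HH K) (VV K) :=
  ⟨fun c t v => by rw [HH_smul, HH_smul, map_smul]; rfl⟩

theorem gX_smul (v : VV K) : gX K • v = JJ K v := by
  rw [HH_smul, gX]
  simp [repG]
  rfl

theorem gE_smul (hK : (2 : K) ≠ 0) (v : VV K) : gE K • v = v := by
  have : NeZero (2 : K) := ⟨hK⟩
  rw [gE, smul_assoc, sub_smul, one_smul, mul_smul, gX_smul, gX_smul]
  have h := LinearMap.congr_fun (JJ_sq (K := K)) v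
  have h' : JJ K (JJ K v) = -v := h
  rw [h', sub_neg_eq_add, smul_add, ← add_smul, add_halves, one_smul]

end Space

section Lattices

open Module

variable (K : Type) [Field K] [Algebra ℚ_[2] K] [Algebra ℤ_[2] K] [IsScalarTower ℤ_[2] ℚ_[2] K]

/-- The valuation ring. -/
abbrev OO : Type := integralClosure ℤ_[2] K

noncomputable instance : Module (OO K) (VV K) := inferInstanceAs (Module (OO K) (K × K))

variable {K}

omit [Algebra ℚ_[2] K] [IsScalarTower ℤ_[2] ℚ_[2] K] in
theorem OO_smul (r : OO K) (v : VV K) : r • v = (r : K) • v := rfl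

theorem two_mul_ne_one (y : OO K) : 2 * y ≠ 1 := by
  intro h
  have h1 : (2 : K) * y = 1 := congrArg Subtype.val h
  have h2 : (y : K) = algebraMap ℚ_[2] K (1 / 2) := by
    have h3 : (algebraMap ℚ_[2] K 2) * algebraMap ℚ_[2] K (1 / 2) = 1 := by
      rw [← map_mul]
      norm_num
    rw [map_ofNat] at h3
    have h4 : (2 : K) ≠ 0 := by
      intro h5
      rw [h5, zero_mul] at h3
      exact zero_ne_one h3
    exact mul_left_cancel₀ h4 (h1.trans h3.symm)
  have h3 : IsIntegral ℤ_[2] (algebraMap ℚ_[2] K (1 / 2)) := h2 ▸ y.2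
  have h4 : IsIntegral ℤ_[2] (1 / 2 : ℚ_[2]) :=
    (isIntegral_algebraMap_iff (algebraMap ℚ_[2] K).injective).1 h3
  obtain ⟨z, hz⟩ := IsIntegrallyClosed.isIntegral_iff.1 h4
  have h5 : ‖(z : ℚ_[2])‖ ≤ 1 := z.2
  have h6 : (z : ℚ_[2]) = 1 / 2 := hz
  have h7 : ‖(2 : ℚ_[2])‖ = (2 : ℝ)⁻¹ := by
    have := Padic.norm_p (p := 2)
    exact_mod_cast this
  rw [h6, norm_div, norm_one, h7] at h5
  norm_num at h5

theorem two_ne (K : Type) [Field K] [Algebra ℚ_[2] K] : (2 : K) ≠ 0 := by
  have : (algebraMap ℚ_[2] K 2) ≠ 0 := by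
    rw [Ne, map_eq_zero]
    norm_num
  rwa [map_ofNat] at this

instance : IsScalarTower (OO K) (ord (K := K) (OO K) (two_ne K)) (VV K) :=
  ⟨fun c t v => by
    show ((c • (t : HH K)) • v) = (c : K) • ((t : HH K) • v)
    rw [← smul_assoc]
    congr 1⟩

omit [IsScalarTower ℤ_[2] ℚ_[2] K] in
theorem elt_smul (a b c d : OO K) (v : VV K) :
    elt K a b c d • v = (a : K) • v + (b : K) • JJ K v + (c : K) • v + (d : K) • JJ K v := by
  rw [elt_eq, add_smul, add_smul, add_smul, smul_assoc, smul_assoc, smul_assoc, smul_assoc,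
    mul_smul, gE_smul (two_ne K), gX_smul, one_smul]
  rfl

/-- The pairs `(a, b)` of elements of the valuation ring for which `ϖ` divides `a + b`. -/
noncomputable def latP (w : OO K) (h2 : ∃ c, w * c = 2) :
    Submodule (ord (K := K) (OO K) (two_ne K)) (VV K) where
  carrier := {v | ∃ a b c : OO K, v = (((a : K), (b : K)) : K × K) ∧ a + b = w * c}
  add_mem' := by
    rintro _ _ ⟨a, b, c, rfl, h⟩ ⟨a', b', c', rfl, h'⟩
    exact ⟨a + a', b + b', c + c', rfl, by linear_combination h + h'⟩
  zero_mem' := ⟨0, 0, 0, rfl, by ring⟩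
  smul_mem' := by
    rintro ⟨_, p, q, r, t, rfl⟩ _ ⟨a, b, c, rfl, h⟩
    obtain ⟨d, hd⟩ := h2
    refine ⟨p * a - q * b + r * a - t * b, p * b + q * a + r * b + t * a,
      p * c + q * (c - d * b) + r * c + t * (c - d * b), ?_, ?_⟩
    · show elt K p q r t • (mkV (a : K) (b : K)) = _
      rw [elt_smul, JJ_apply]
      refine Prod.ext ?_ ?_
      · show (p : K) * a + (q : K) * (-b) + (r : K) * a + (t : K) * (-b) = _
        simp
        ring
      · show (p : K) * b + (q : K) * a + (r : K) * b + (t : K) * a = _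
        simp
    · linear_combination (p + q + r + t) * h + (q * b + t * b) * hd

/-- Coordinates on the lattice. -/
noncomputable def coordMap (w : OO K) (h2 : ∃ c, w * c = 2) :
    (OO K × OO K) →ₗ[OO K] latP w h2 where
  toFun v := ⟨(((w * v.1 - v.2 : OO K) : K), (v.2 : K)), w * v.1 - v.2, v.2, v.1, rfl, by ring⟩
  map_add' a b := by
    apply Subtype.ext
    refine Prod.ext ?_ ?_
    · show ((w * (a.1 + b.1) - (a.2 + b.2) : OO K) : K) = ((w * a.1 - a.2 : OO K) : K) +
        ((w * b.1 - b.2 : OO K) : K)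
      push_cast
      ring
    · show ((a.2 + b.2 : OO K) : K) = (a.2 : K) + (b.2 : K)
      push_cast
      ring
  map_smul' c a := by
    apply Subtype.ext
    refine Prod.ext ?_ ?_
    · show ((w * (c * a.1) - (c * a.2) : OO K) : K) = (c : K) * ((w * a.1 - a.2 : OO K) : K)
      push_cast
      ring
    · show ((c * a.2 : OO K) : K) = (c : K) * (a.2 : K)
      push_cast
      ring

omit [IsScalarTower ℤ_[2] ℚ_[2] K] in
theorem coordMap_bijective (w : OO K) (hw : w ≠ 0) (h2 : ∃ c, w * c = 2) :
    Function.Bijective (coordMap w h2) := by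
  constructor
  · rw [injective_iff_map_eq_zero]
    rintro ⟨c, b⟩ h
    have h1 := congrArg Subtype.val h
    have hb : (b : K) = 0 := congrArg Prod.snd h1
    have hc : ((w * c - b : OO K) : K) = 0 := congrArg Prod.fst h1
    have hb' : b = 0 := Subtype.ext hb
    have hc' : w * c - b = 0 := Subtype.ext hc
    rw [hb', sub_zero] at hc'
    rw [hb', (mul_eq_zero.1 hc').resolve_left hw]
    rfl
  · rintro ⟨_, a, b, c, rfl, h⟩
    refine ⟨(c, b), ?_⟩
    apply Subtype.ext
    refine Prod.ext ?_ rfl
    show ((w * c - b : OO K) : K) = (a : K)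
    rw [← h]
    push_cast
    ring

/-- The lattice as a bundled object. -/
noncomputable def latL [FiniteDimensional ℚ_[2] K] (w : OO K) (hw : w ≠ 0)
    (h2 : ∃ c, w * c = 2) : Lat (OO K) (ord (K := K) (OO K) (two_ne K)) :=
  let e := LinearEquiv.ofBijective (coordMap w h2) (coordMap_bijective w hw h2)
  haveI : Module.Finite (OO K) (latP w h2) := Module.Finite.equiv e
  haveI : Module.Free (OO K) (latP w h2) := Module.Free.of_equiv e
  haveI : Module.Finite (ord (K := K) (OO K) (two_ne K)) (latP w h2) :=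
    Module.Finite.of_restrictScalars_finite (OO K) _ _
  { carrier := latP w h2 }

omit [IsScalarTower ℤ_[2] ℚ_[2] K] in
theorem latL_scalarExt [FiniteDimensional ℚ_[2] K] (w : OO K) (hw : w ≠ 0)
    (h2 : ∃ c, w * c = 2) :
    IsScalarExt (ord (K := K) (OO K) (two_ne K)).val.toRingHom (latL w hw h2).carrier (VV K) := by
  refine ⟨(latP w h2).subtype.toAddMonoidHom, Subtype.val_injective, fun _ _ => rfl, ?_⟩
  rw [eq_top_iff]
  intro v _
  have hw' : (w : K) ≠ 0 := fun h => hw (Subtype.ext h)
  let m : latP w h2 := ⟨(((w : OO K) : K), ((0 : OO K) : K)), w, 0, 1, rfl, by ring⟩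
  let u : VV K := (((w : OO K) : K), ((0 : OO K) : K))
  have h1 : u ∈ Submodule.span (HH K)
      (Set.range ((latP w h2).subtype.toAddMonoidHom : latP w h2 →+ VV K)) :=
    Submodule.subset_span ⟨m, rfl⟩
  have h3 := Submodule.smul_mem _ (algebraMap K (HH K) (v.1 / w)) h1
  have h4 := Submodule.smul_mem _ (algebraMap K (HH K) (v.2 / w)) (Submodule.smul_mem _ (gX K) h1)
  have h5 := Submodule.add_mem _ h3 h4
  have hv : v = algebraMap K (HH K) (v.1 / w) • u + algebraMap K (HH K) (v.2 / w) • gX K • u := by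
    rw [algebraMap_smul, algebraMap_smul, gX_smul, JJ_apply]
    refine Prod.ext ?_ ?_
    · show v.1 = v.1 / w * w + v.2 / w * (-((0 : OO K) : K))
      simp [hw']
    · show v.2 = v.1 / w * ((0 : OO K) : K) + v.2 / w * w
      simp [hw']
  rw [hv]
  exact h5

end Lattices

section Index

open Module

variable {K : Type} [Field K] [Algebra ℚ_[2] K] [Algebra ℤ_[2] K] [IsScalarTower ℤ_[2] ℚ_[2] K]

/-- The order as a type. -/
abbrev LL (K : Type) [Field K] [Algebra ℚ_[2] K] [Algebra ℤ_[2] K] : Type :=
  ord (K := K) (OO K) (two_ne K)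

/-- The generator `x` in the order. -/
noncomputable def xL : LL K := ⟨gX K, gX_mem (two_ne K)⟩

/-- The idempotent `e` in the order. -/
noncomputable def eL : LL K := ⟨gE K, gE_mem (two_ne K)⟩

omit [IsScalarTower ℤ_[2] ℚ_[2] K] in
theorem rels (s : OO K) (hs : s * s = 3) :
    Rels (algebraMap (OO K) (LL K) s) (xL (K := K)) eL where
  ss := by rw [← map_mul, hs, map_ofNat]
  ee := Subtype.ext (gE_mul (two_ne K))
  sx := mul_comm _ _
  se := mul_comm _ _
  xe := mul_comm _ _
  xxe := by
    apply Subtype.ext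
    show gX K * gX K * gE K = -gE K
    rw [gX_mul (two_ne K)]
    linear_combination (-2) * gE_mul (two_ne K)

variable (w : OO K) (h2 : ∃ c, w * c = 2)

/-- The first coordinate. -/
def fstO (v : latP w h2) : OO K := ⟨v.1.1, by
  obtain ⟨_, a, b, c, rfl, h⟩ := v
  exact a.2⟩

/-- The second coordinate. -/
def sndO (v : latP w h2) : OO K := ⟨v.1.2, by
  obtain ⟨_, a, b, c, rfl, h⟩ := v
  exact b.2⟩

omit [IsScalarTower ℤ_[2] ℚ_[2] K] in
theorem fst_add_snd (v : latP w h2) : ∃ c, fstO w h2 v + sndO w h2 v = w * c := by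
  obtain ⟨_, a, b, c, rfl, h⟩ := v
  exact ⟨c, h⟩

omit [IsScalarTower ℤ_[2] ℚ_[2] K] in
theorem eL_smul (v : latP w h2) : (eL : LL K) • v = v := by
  apply Subtype.ext
  exact gE_smul (two_ne K) v.1

/-- The map `(a, b) ↦ a + √3 b` modulo `2`. -/
noncomputable def psi (s : OO K) :
    part (eL : LL K) (latP w h2) →+ OO K ⧸ Ideal.span {(2 : OO K)} where
  toFun n := Ideal.Quotient.mk _ (fstO w h2 n + s * sndO w h2 n)
  map_zero' := by
    have h1 : fstO w h2 (0 : part (eL : LL K) (latP w h2)) = 0 := rfl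
    have h3 : sndO w h2 (0 : part (eL : LL K) (latP w h2)) = 0 := rfl
    rw [h1, h3, mul_zero, add_zero, map_zero]
  map_add' m n := by
    have h1 : fstO w h2 ((m + n : part (eL : LL K) (latP w h2)) : latP w h2) =
      fstO w h2 m + fstO w h2 n := rfl
    have h3 : sndO w h2 ((m + n : part (eL : LL K) (latP w h2)) : latP w h2) =
      sndO w h2 m + sndO w h2 n := rfl
    rw [h1, h3, ← map_add]
    congr 1
    ring

omit [IsScalarTower ℤ_[2] ℚ_[2] K] in
theorem theta_coords (s : OO K) (v : latP w h2) :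
    fstO w h2 (theta (algebraMap (OO K) (LL K) s) xL v) = -(s * sndO w h2 v) - fstO w h2 v ∧
    sndO w h2 (theta (algebraMap (OO K) (LL K) s) xL v) = s * fstO w h2 v - sndO w h2 v := by
  have h : ((theta (algebraMap (OO K) (LL K) s) xL v : latP w h2) : VV K) =
      (s : K) • JJ K v.1 - v.1 := by
    show (algebraMap (OO K) (HH K) s) • (gX K • v.1) - v.1 = _
    rw [gX_smul, IsScalarTower.algebraMap_apply (OO K) K (HH K), algebraMap_smul]
    rfl
  constructor
  · apply Subtype.ext
    have h1 := congrArg Prod.fst h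
    refine h1.trans ?_
    show (s : K) * (-v.1.2) - v.1.1 = -((s : K) * v.1.2) - v.1.1
    ring
  · apply Subtype.ext
    exact congrArg Prod.snd h

omit [IsScalarTower ℤ_[2] ℚ_[2] K] in
theorem ker_psi (s : OO K) (hs : s * s = 3) (hws : ∃ d, w * d = s - 1) :
    (psi w h2 s).ker = flat (eL : LL K) (algebraMap (OO K) (LL K) s) xL (latP w h2) := by
  ext n
  constructor
  · intro hn
    have h1 : fstO w h2 n + s * sndO w h2 n ∈ Ideal.span {(2 : OO K)} :=
      Ideal.Quotient.eq_zero_iff_mem.1 hn
    obtain ⟨c, hc⟩ := Ideal.mem_span_singleton'.1 h1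
    obtain ⟨d, hd⟩ := hws
    have h2' := h2
    obtain ⟨d', hd'⟩ := h2'
    set a := fstO w h2 n
    set b := sndO w h2 n
    let m : latP w h2 := ⟨(((-c : OO K) : K), ((s * c - 2 * b : OO K) : K)), -c, s * c - 2 * b,
      d * c - d' * b, rfl, by linear_combination (-c) * hd + b * hd'⟩
    refine ⟨⟨m, eL_smul w h2 m⟩, ?_⟩
    have hθ := theta_coords w h2 s (n : latP w h2)
    apply Subtype.ext
    refine Prod.ext ?_ ?_
    · have h3 : (-c) + (-c) = -(s * b) - a := by linear_combination (-1) * hc
      have h4 := congrArg Subtype.val (h3.trans hθ.1.symm)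
      exact h4
    · have h3 : (s * c - 2 * b) + (s * c - 2 * b) = s * a - b := by
        linear_combination s * hc + b * hs
      have h4 := congrArg Subtype.val (h3.trans hθ.2.symm)
      exact h4
  · rintro ⟨m, hm⟩
    have hθ := (theta_coords w h2 s (n : latP w h2)).1
    have h3 : fstO w h2 ((m : latP w h2) + (m : latP w h2)) =
        -(s * sndO w h2 n) - fstO w h2 n := by
      rw [hm]
      exact hθ
    have h4 : fstO w h2 ((m : latP w h2) + (m : latP w h2)) = fstO w h2 m + fstO w h2 m := rfl
    rw [h4] at h3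
    refine Ideal.Quotient.eq_zero_iff_mem.2 (Ideal.mem_span_singleton'.2 ⟨-fstO w h2 m, ?_⟩)
    linear_combination (-1) * h3

omit [IsScalarTower ℤ_[2] ℚ_[2] K] in
theorem range_psi (s : OO K) (hws : ∃ d, w * d = s - 1) (t : OO K ⧸ Ideal.span {(2 : OO K)}) :
    t ∈ (psi w h2 s).range ↔ ∃ c, t = Ideal.Quotient.mk _ (w * c) := by
  constructor
  · rintro ⟨n, rfl⟩
    obtain ⟨c, hc⟩ := fst_add_snd w h2 n
    obtain ⟨d, hd⟩ := hws
    refine ⟨c + d * sndO w h2 n, ?_⟩
    show Ideal.Quotient.mk _ (fstO w h2 n + s * sndO w h2 n) = _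
    congr 1
    linear_combination hc - sndO w h2 n * hd
  · rintro ⟨c, rfl⟩
    let m : latP w h2 := ⟨(((w * c : OO K) : K), ((0 : OO K) : K)), w * c, 0, c, rfl, by ring⟩
    refine ⟨⟨m, eL_smul w h2 m⟩, ?_⟩
    show Ideal.Quotient.mk _ (fstO w h2 m + s * sndO w h2 m) = _
    have h3 : fstO w h2 m = w * c := rfl
    have h4 : sndO w h2 m = 0 := rfl
    rw [h3, h4, mul_zero, add_zero]

omit [IsScalarTower ℤ_[2] ℚ_[2] K] in
theorem two_ne_OO : (2 : OO K) ≠ 0 := fun h => two_ne K (congrArg Subtype.val h)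

omit [IsScalarTower ℤ_[2] ℚ_[2] K] in
theorem charZero_OO : CharZero (OO K) := by
  have : CharZero K := charZero_of_injective_algebraMap (algebraMap ℚ_[2] K).injective
  refine ⟨fun a b hab => ?_⟩
  have h := congrArg (algebraMap (OO K) K) hab
  rw [map_natCast, map_natCast] at h
  exact_mod_cast h

theorem index_flat_one [FiniteDimensional ℚ_[2] K] (h : finrank ℚ_[2] K = 2) (s : OO K)
    (hs : s * s = 3) (h2' : ∃ c : OO K, 1 * c = 2) :
    (flat (eL : LL K) (algebraMap (OO K) (LL K) s) xL (latP 1 h2')).index = 4 := by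
  have hws : ∃ d, 1 * d = s - 1 := ⟨s - 1, one_mul _⟩
  rw [← ker_psi 1 h2' s hs hws, AddSubgroup.index_ker]
  have h1 : (psi 1 h2' s).range = ⊤ := by
    rw [eq_top_iff]
    intro t _
    obtain ⟨c, rfl⟩ := Ideal.Quotient.mk_surjective t
    exact (range_psi 1 h2' s hws _).2 ⟨c, by rw [one_mul]⟩
  rw [h1, AddSubgroup.card_top]
  exact card_mod_two K h

theorem index_flat_pi [FiniteDimensional ℚ_[2] K] (h : finrank ℚ_[2] K = 2) (s : OO K)
    (hs : s * s = 3) (h2' : ∃ c : OO K, (1 + s) * c = 2) :
    (flat (eL : LL K) (algebraMap (OO K) (LL K) s) xL (latP (1 + s) h2')).index = 2 := by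
  have hws : ∃ d, (1 + s) * d = s - 1 := ⟨2 - s, by linear_combination (-1) * hs⟩
  rw [← ker_psi (1 + s) h2' s hs hws, AddSubgroup.index_ker]
  have hc := card_mod_two K h
  have hfin : Finite (OO K ⧸ Ideal.span {(2 : OO K)}) :=
    Nat.finite_of_card_ne_zero (by rw [hc]; norm_num)
  have h1 := AddSubgroup.card_addSubgroup_dvd_card (psi (1 + s) h2' s).range
  rw [hc] at h1
  have h3 : Nat.card (psi (1 + s) h2' s).range ≠ 1 := by
    intro h4
    rw [AddSubgroup.card_eq_one] at h4
    have h5 : Ideal.Quotient.mk (Ideal.span {(2 : OO K)}) ((1 + s) * 1) ∈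
        (psi (1 + s) h2' s).range := (range_psi _ h2' s hws _).2 ⟨1, rfl⟩
    rw [h4, AddSubgroup.mem_bot, Ideal.Quotient.eq_zero_iff_mem] at h5
    obtain ⟨y, hy⟩ := Ideal.mem_span_singleton'.1 h5
    apply two_mul_ne_one (y * y - y)
    have h6 : 2 * (2 * (y * y - y)) = 2 * 1 := by
      linear_combination (y * 2 + (1 + s) - 2) * hy + hs
    exact mul_left_cancel₀ (two_ne_OO (K := K)) h6
  have h4 : Nat.card (psi (1 + s) h2' s).range ≠ 4 := by
    intro h5
    have h6 : (psi (1 + s) h2' s).range = ⊤ := by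
      apply AddSubgroup.eq_top_of_card_eq
      rw [h5, hc]
    have h7 : Ideal.Quotient.mk (Ideal.span {(2 : OO K)}) 1 ∈ (psi (1 + s) h2' s).range := by
      rw [h6]
      trivial
    obtain ⟨c, hc'⟩ := (range_psi _ h2' s hws _).1 h7
    obtain ⟨y, hy⟩ := Ideal.mem_span_singleton'.1 (Ideal.Quotient.eq.1 hc'.symm)
    -- `(1 + s) c - 1 = 2 y`, hence `s - 1 = 2 z`
    have h8 : s - 1 = 2 * (c - (s - 1) * y) := by
      linear_combination (s - 1) * hy + c * hs
    set z := c - (s - 1) * y
    apply two_mul_ne_one (z * z + z)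
    have h9 : 2 * (2 * (z * z + z)) = 2 * 1 := by
      linear_combination (-(2 * z) - (s - 1) - 2) * h8 + hs
    exact mul_left_cancel₀ (two_ne_OO (K := K)) h9
  have h5 : Nat.card (psi (1 + s) h2' s).range ≤ 4 := Nat.le_of_dvd (by norm_num) h1
  interval_cases hcard : Nat.card (psi (1 + s) h2' s).range
  · exact absurd h1 (by decide)
  · exact absurd rfl h3
  · rfl
  · exact absurd h1 (by decide)
  · exact absurd rfl h4

theorem swanFails [FiniteDimensional ℚ_[2] K] (h : finrank ℚ_[2] K = 2) (s : OO K)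
    (hs : s * s = 3) : SwanFails (OO K) (ord (K := K) (OO K) (two_ne K)).val.toRingHom := by
  have h1 : ∃ c : OO K, 1 * c = 2 := ⟨2, one_mul _⟩
  have h2' : ∃ c : OO K, (1 + s) * c = 2 := ⟨s - 1, by linear_combination hs⟩
  have hw : 1 + s ≠ 0 := by
    intro h3
    obtain ⟨c, hc⟩ := h2'
    rw [h3, zero_mul] at hc
    exact two_ne_OO (K := K) hc.symm
  refine ⟨latL 1 one_ne_zero h1, latL (1 + s) hw h2', VV K, inferInstance, inferInstance,
    latL_scalarExt _ _ _, latL_scalarExt _ _ _, ?_⟩
  intro hcls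
  have hfin : Module.Finite (OO K) (LL K) :=
    Module.Finite.iff_fg.2 (ord_fg (two_ne K))
  have hchar : CharZero (OO K) := charZero_OO
  have h3 := eps_eq_of_cls (rels s hs) _ _ hcls
  have h4 : eps (algebraMap (OO K) (LL K) s) xL eL (latL 1 one_ne_zero h1) = 0 := by
    have h5 : (flat (eL : LL K) (algebraMap (OO K) (LL K) s) xL
      (latL 1 one_ne_zero h1).carrier).index = 4 := index_flat_one h s hs h1
    rw [eps, h5]
    rfl
  have h5 : eps (algebraMap (OO K) (LL K) s) xL eL (latL (1 + s) hw h2') = 1 := by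
    have h6 : (flat (eL : LL K) (algebraMap (OO K) (LL K) s) xL
      (latL (1 + s) hw h2').carrier).index = 2 := index_flat_pi h s hs h2'
    rw [eps, h6]
    rfl
  rw [h4, h5] at h3
  exact absurd h3 (by decide)

end Index

section Existence

open Polynomial Module

theorem not_square (y : ℚ_[2]) : y * y ≠ 3 := by
  intro hy
  have hn : ‖y‖ ≤ 1 := by
    have h1 : ‖y‖ * ‖y‖ ≤ 1 := by
      rw [← norm_mul, hy]
      have := Padic.norm_int_le_one (p := 2) 3
      exact_mod_cast this
    nlinarith [norm_nonneg y]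
  let z : ℤ_[2] := ⟨y, hn⟩
  have hz : z * z = 3 := by
    apply Subtype.ext
    show y * y = ((3 : ℤ_[2]) : ℚ_[2])
    rw [hy]
    rfl
  have h3 := congrArg (PadicInt.toZModPow (p := 2) 2) hz
  rw [map_mul, map_ofNat] at h3
  have : ∀ a : ZMod (2 ^ 2), a * a ≠ 3 := by decide
  exact this _ h3

/-- The polynomial `X^2 - 3`. -/
noncomputable def pol : ℚ_[2][X] := X ^ 2 - C 3

theorem pol_eval₂ {A : Type} [CommRing A] (f : ℚ_[2] →+* A) (r : A) :
    pol.eval₂ f r = r * r - 3 := by
  rw [pol, eval₂_sub, eval₂_pow, eval₂_X, eval₂_C, map_ofNat, pow_two]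

theorem pol_degree : pol.natDegree = 2 := by
  rw [pol]
  exact natDegree_X_pow_sub_C

theorem pol_irreducible : Irreducible pol := by
  have hm : pol.Monic := monic_X_pow_sub_C _ (by norm_num)
  rw [hm.irreducible_iff_roots_eq_zero_of_degree_le_three (by rw [pol_degree])
    (by rw [pol_degree]; norm_num)]
  rw [Multiset.eq_zero_iff_forall_notMem]
  intro y hy
  rw [mem_roots hm.ne_zero, IsRoot, pol, eval_sub, eval_pow, eval_X, eval_C, sub_eq_zero] at hy
  exact not_square y (by rw [← hy]; ring)

end Existence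

/-- There are a finite extension `K` of `ℚ_2` and a Hopf order over its valuation ring in the group
algebra of the cyclic group of order four for which the Swan property fails. -/
theorem result : ∃ (K : Type) (_ : Field K) (_ : Algebra ℚ_[2] K) (_ : Algebra ℤ_[2] K)
    (_ : IsScalarTower ℤ_[2] ℚ_[2] K) (_ : FiniteDimensional ℚ_[2] K)
    (Λ : Subalgebra (integralClosure ℤ_[2] K) (MonoidAlgebra K (Multiplicative (ZMod 4)))),
    IsHopfOrder (K := K) Λ ∧
      SwanFails (integralClosure ℤ_[2] K) Λ.val.toRingHom := by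
  have : Fact (Irreducible pol) := ⟨pol_irreducible⟩
  have hfd : FiniteDimensional ℚ_[2] (AdjoinRoot pol) :=
    (AdjoinRoot.powerBasis pol_irreducible.ne_zero).finite
  have hr : Module.finrank ℚ_[2] (AdjoinRoot pol) = 2 := by
    rw [(AdjoinRoot.powerBasis pol_irreducible.ne_zero).finrank, AdjoinRoot.powerBasis_dim,
      pol_degree]
  have ht : AdjoinRoot.root pol * AdjoinRoot.root pol = 3 := by
    have h1 := AdjoinRoot.eval₂_root pol
    rw [pol_eval₂] at h1
    exact sub_eq_zero.1 h1
  have hint : IsIntegral ℤ_[2] (AdjoinRoot.root pol) := by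
    refine ⟨Polynomial.X ^ 2 - Polynomial.C 3, Polynomial.monic_X_pow_sub_C _ (by norm_num), ?_⟩
    rw [Polynomial.eval₂_sub, Polynomial.eval₂_pow, Polynomial.eval₂_X,
      Polynomial.eval₂_C, map_ofNat, pow_two, ht, sub_self]
  exact ⟨AdjoinRoot pol, inferInstance, inferInstance, inferInstance, inferInstance, hfd,
    ord _ (two_ne _), isHopfOrder (two_ne _), swanFails hr ⟨AdjoinRoot.root pol, hint⟩
      (Subtype.ext ht)⟩

end Pool.Agent.Results.MP_f004b1_al.CyclicFour
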